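import Pool.Agent.Helper13.RL.GOO1
import Pool.Agent.Helper77.RL.Goals2

/-! RL: L_GOO, third part: the two squares. -/

namespace Pool.Agent.Helper13.RL

open Module
open Pool.Agent.Helper77.RL (Sqr)
open Pool.Agent.Helper79.RD (map_sup_mem map_mem_normal)

section sq

variable {K Ω : Type} [Field K] [Field Ω] [Algebra K Ω]

theorem sqr_sup {p n : ℕ} {M L : IntermediateField K Ω}
    [Algebra M (M ⊔ L : IntermediateField K Ω)] [Algebra L (M ⊔ L : IntermediateField K Ω)]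
    (hM : ∀ x : M, ((algebraMap M (M ⊔ L : IntermediateField K Ω) x :
      (M ⊔ L : IntermediateField K Ω)) : Ω) = x)
    (hL : ∀ x : L, ((algebraMap L (M ⊔ L : IntermediateField K Ω) x :
      (M ⊔ L : IntermediateField K Ω)) : Ω) = x)
    (gM : IsGalois K M) (gL : IsGalois K L) (hc : (finrank K M).Coprime p)
    (hd : finrank K L = p ^ n) : Sqr p n K M L (M ⊔ L : IntermediateField K Ω) where
  galM := gM
  galL := gL
  gal := inferInstance
  cop := hc
  deg := hd
  gen := by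
    intro g h1 h2
    have e1 : ((g : (M ⊔ L : IntermediateField K Ω) →ₐ[K] (M ⊔ L : IntermediateField K Ω))) =
        AlgHom.id K _ := by
      refine hom_ext_sup ?_ ?_
      · intro x hx
        have h3 := h1 ⟨x, hx⟩
        have h4 : algebraMap M (M ⊔ L : IntermediateField K Ω) ⟨x, hx⟩ =
            ⟨x, (le_sup_left : M ≤ M ⊔ L) hx⟩ := Subtype.ext (hM ⟨x, hx⟩)
        rw [h4] at h3
        exact h3
      · intro x hx
        have h3 := h2 ⟨x, hx⟩
        have h4 : algebraMap L (M ⊔ L : IntermediateField K Ω) ⟨x, hx⟩ =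
            ⟨x, (le_sup_right : L ≤ M ⊔ L) hx⟩ := Subtype.ext (hL ⟨x, hx⟩)
        rw [h4] at h3
        exact h3
    ext x
    have h5 := AlgHom.congr_fun e1 x
    exact congrArg Subtype.val h5

/-- the images of elements of `E = j(M₁)` -/
theorem stable_E [Normal K Ω] {M E : IntermediateField K Ω} {M₁ : Type} [Field M₁] [Algebra M M₁]
    [Normal M M₁] (j : M₁ →+* Ω) (hj : ∀ x : M, j (algebraMap M M₁ x) = x)
    (hjE : ∀ x : M₁, j x ∈ E) (hEj : ∀ y ∈ E, ∃ x : M₁, j x = y) (σ : Ω ≃ₐ[M] Ω) :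
    ∀ y ∈ E, σ y ∈ E := by
  intro y hy
  obtain ⟨x, rfl⟩ := hEj y hy
  let _ : Algebra M₁ Ω := j.toAlgebra
  have ht : IsScalarTower M M₁ Ω := IsScalarTower.of_algebraMap_eq fun c => (hj c).symm
  have h1 := AlgEquiv.restrictNormal_commutes σ M₁ x
  have h2 : σ (j x) = j (σ.restrictNormal M₁ x) := h1.symm
  rw [h2]
  exact hjE _

theorem sqr_two [CharZero K] [Normal K Ω] {p n : ℕ} {M E L : IntermediateField K Ω}
    [Normal K L] {M₁ : Type} [Field M₁] [Algebra M M₁] [gM₁ : IsGalois M M₁] (j : M₁ →+* Ω)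
    (hj : ∀ x : M, j (algebraMap M M₁ x) = x)
    (hjE : ∀ x : M₁, j x ∈ E) (hEj : ∀ y ∈ E, ∃ x : M₁, j x = y)
    [Algebra M (M ⊔ L : IntermediateField K Ω)]
    [Algebra M (E ⊔ L : IntermediateField K Ω)]
    [Algebra M₁ (E ⊔ L : IntermediateField K Ω)]
    [Algebra (M ⊔ L : IntermediateField K Ω) (E ⊔ L : IntermediateField K Ω)]
    (h1 : ∀ x : M, ((algebraMap M (E ⊔ L : IntermediateField K Ω) x :
      (E ⊔ L : IntermediateField K Ω)) : Ω) = x)
    (h2 : ∀ x : M₁, ((algebraMap M₁ (E ⊔ L : IntermediateField K Ω) x :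
      (E ⊔ L : IntermediateField K Ω)) : Ω) = j x)
    (h3 : ∀ x : (M ⊔ L : IntermediateField K Ω),
      ((algebraMap (M ⊔ L : IntermediateField K Ω) (E ⊔ L : IntermediateField K Ω) x :
      (E ⊔ L : IntermediateField K Ω)) : Ω) = x)
    (gL : IsGalois M (M ⊔ L : IntermediateField K Ω)) (hc : (finrank M M₁).Coprime p)
    (hd : finrank M (M ⊔ L : IntermediateField K Ω) = p ^ n) :
    Sqr p n M M₁ (M ⊔ L : IntermediateField K Ω) (E ⊔ L : IntermediateField K Ω) := by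
  have ht0 : IsScalarTower K M Ω := inferInstance
  have hnM : Normal M Ω := Normal.tower_top_of_normal K M Ω
  have ht1 : IsScalarTower M (E ⊔ L : IntermediateField K Ω) Ω :=
    IsScalarTower.of_algebraMap_eq fun c => (h1 c).symm
  have ht2 : IsScalarTower K M (E ⊔ L : IntermediateField K Ω) :=
    IsScalarTower.of_algebraMap_eq fun c => Subtype.ext (h1 (algebraMap K M c)).symm
  have hst : ∀ σ : Ω ≃ₐ[M] Ω, ∀ x ∈ E ⊔ L, σ x ∈ E ⊔ L := by
    intro σ
    have e1 := map_sup_mem (N := L) (σ.restrictScalars K) (stable_E j hj hjE hEj σ)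
    exact e1
  have hn : Normal M (E ⊔ L : IntermediateField K Ω) :=
    normal_of_stable fun σ b => ⟨⟨σ b, hst σ b b.2⟩, rfl⟩
  have hcM : CharZero M := charZero_of_injective_algebraMap (FaithfulSMul.algebraMap_injective K M)
  have hg : IsGalois M (E ⊔ L : IntermediateField K Ω) :=
    { to_isSeparable := inferInstance, to_normal := hn }
  exact
  { galM := gM₁
    galL := gL
    gal := hg
    cop := hc
    deg := hd
    gen := by
      intro g k1 k2
      have e1 : ((g : (E ⊔ L : IntermediateField K Ω) →ₐ[M] (E ⊔ L : IntermediateField K Ω))).restrictScalars K =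
          AlgHom.id K _ := by
        refine hom_ext_sup ?_ ?_
        · intro x hx
          obtain ⟨y, rfl⟩ := hEj x hx
          have k3 := k1 y
          have k4 : algebraMap M₁ (E ⊔ L : IntermediateField K Ω) y =
              ⟨j y, (le_sup_left : E ≤ E ⊔ L) hx⟩ := Subtype.ext (h2 y)
          rw [k4] at k3
          exact k3
        · intro x hx
          have k3 := k2 ⟨x, (le_sup_right : L ≤ M ⊔ L) hx⟩
          have k4 : algebraMap (M ⊔ L : IntermediateField K Ω) (E ⊔ L : IntermediateField K Ω)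
              ⟨x, (le_sup_right : L ≤ M ⊔ L) hx⟩ =
              ⟨x, (le_sup_right : L ≤ E ⊔ L) hx⟩ := Subtype.ext (h3 _)
          rw [k4] at k3
          exact k3
      ext x
      have h5 := AlgHom.congr_fun e1 x
      exact congrArg Subtype.val h5 }

/-- `sqr_sup` for a field equal to the compositum -/
theorem sqr_sup' {p n : ℕ} {M L F : IntermediateField K Ω} (hF : F = M ⊔ L)
    [Algebra M F] [Algebra L F] (hM : ∀ x : M, ((algebraMap M F x : F) : Ω) = x)
    (hL : ∀ x : L, ((algebraMap L F x : F) : Ω) = x)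
    (gM : IsGalois K M) (gL : IsGalois K L) (hc : (finrank K M).Coprime p)
    (hd : finrank K L = p ^ n) : Sqr p n K M L F := by
  subst hF
  exact sqr_sup hM hL gM gL hc hd

/-- `sqr_two` for fields equal to the composita -/
theorem sqr_two' [CharZero K] [Normal K Ω] {p n : ℕ} {M E L F F₁ : IntermediateField K Ω}
    (hF : F = M ⊔ L) (hF₁ : F₁ = E ⊔ L)
    [Normal K L] {M₁ : Type} [Field M₁] [Algebra M M₁] [gM₁ : IsGalois M M₁] (j : M₁ →+* Ω)
    (hj : ∀ x : M, j (algebraMap M M₁ x) = x)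
    (hjE : ∀ x : M₁, j x ∈ E) (hEj : ∀ y ∈ E, ∃ x : M₁, j x = y)
    [Algebra M F] [Algebra M F₁] [Algebra M₁ F₁] [Algebra F F₁]
    (h1 : ∀ x : M, ((algebraMap M F₁ x : F₁) : Ω) = x)
    (h2 : ∀ x : M₁, ((algebraMap M₁ F₁ x : F₁) : Ω) = j x)
    (h3 : ∀ x : F, ((algebraMap F F₁ x : F₁) : Ω) = x)
    (gL : IsGalois M F) (hc : (finrank M M₁).Coprime p)
    (hd : finrank M F = p ^ n) : Sqr p n M M₁ F F₁ := by
  subst hF hF₁
  exact sqr_two j hj hjE hEj h1 h2 h3 gL hc hd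

end sq

section auts

variable {K Ω : Type} [Field K] [Field Ω] [Algebra K Ω]

/-- the Kummer automorphism -/
theorem exists_gK [Normal K Ω] {p : ℕ} (hp : p.Prime) {F₁ : IntermediateField K Ω} {ε a s : Ω}
    (hε : IsPrimitiveRoot ε p) (hεF : ε ∈ F₁) (haF : a ∈ F₁) (ha : a ≠ 0) (hs : s ^ p = a)
    (hsF : s ∉ F₁) : ∃ g : Ω ≃ₐ[K] Ω, (∀ x ∈ F₁, g x = x) ∧ g s = ε * s := by
  have hn : Normal F₁ Ω := Normal.tower_top_of_normal K F₁ Ω
  have hε' : IsPrimitiveRoot (⟨ε, hεF⟩ : F₁) p :=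
    IsPrimitiveRoot.of_map_of_injective (f := algebraMap F₁ Ω) hε (RingHom.injective _)
  have hs' : s ^ p = algebraMap F₁ Ω ⟨a, haF⟩ := hs
  have ha' : (⟨a, haF⟩ : F₁) ≠ 0 := fun h => ha (congrArg Subtype.val h)
  have hr := Pool.Agent.Helper79.RD.no_root hp hε' (algebraMap F₁ Ω) ha' hs' (by
    rintro ⟨y, hy⟩
    apply hsF
    rw [← hy]
    exact y.2)
  obtain ⟨-, g, hg⟩ := Pool.Agent.Helper79.RD.exists_kummer hp hε' hs' hr
  exact ⟨g.restrictScalars K, fun x hx => g.commutes ⟨x, hx⟩, hg⟩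

/-- restriction of an automorphism which is trivial on `L`, as an automorphism over `L` -/
noncomputable def resL {L F : IntermediateField K Ω} [Algebra L F]
    (hLF : ∀ x : L, ((algebraMap L F x : F) : Ω) = x) (g : Ω ≃ₐ[K] Ω) (h1 : ∀ x ∈ F, g x ∈ F)
    (h2 : ∀ x ∈ F, g.symm x ∈ F) (h3 : ∀ x ∈ L, g x = x) : F ≃ₐ[L] F :=
  AlgEquiv.ofRingEquiv (f := (Pool.Agent.Helper79.RD.res g h1 h2 : F ≃+* F)) fun x =>
    Subtype.ext (by
      rw [hLF]
      have e1 : g ((algebraMap L F x : F) : Ω) = (x : Ω) := by rw [hLF, h3 x x.2]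
      exact e1)

theorem resL_coe {L F : IntermediateField K Ω} [Algebra L F]
    (hLF : ∀ x : L, ((algebraMap L F x : F) : Ω) = x) (g : Ω ≃ₐ[K] Ω) (h1 : ∀ x ∈ F, g x ∈ F)
    (h2 : ∀ x ∈ F, g.symm x ∈ F) (h3 : ∀ x ∈ L, g x = x) (x : F) :
    ((resL hLF g h1 h2 h3 x : F) : Ω) = g x := rfl

theorem resL_pow {L F : IntermediateField K Ω} [Algebra L F]
    (hLF : ∀ x : L, ((algebraMap L F x : F) : Ω) = x) (g : Ω ≃ₐ[K] Ω) (h1 : ∀ x ∈ F, g x ∈ F)
    (h2 : ∀ x ∈ F, g.symm x ∈ F) (h3 : ∀ x ∈ L, g x = x) (n : ℕ) (x : F) :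
    ((((resL hLF g h1 h2 h3) ^ n) x : F) : Ω) = (g ^ n) (x : Ω) := by
  induction n with
  | zero => rfl
  | succ n ih =>
    rw [pow_succ', pow_succ', AlgEquiv.mul_apply, AlgEquiv.mul_apply, resL_coe, ih]

end auts

end Pool.Agent.Helper13.RL
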