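import Pool.Agent.Helper13.RL.GOO2
import Pool.Agent.Helper13.RL.GOO3

/-! RL: L_GOO. -/

namespace Pool.Agent.Helper13.RL

open NumberField Polynomial Module IsDedekindDomain TensorProduct Pool.Agent.Helper51.SigLeo
open Pool.Agent.Helper51.RP Pool.Agent.Helper77.RL
open Pool.Agent.Helper42.RD (IsDat LocD Match TSet)
open Pool.Agent.Helper79.RD (eq_on_sup mem_of_fixed exists_ext map_sup_mem map_mem_normal
  finrank_sup_coprime pow_fix fix_pow res res_coe res_pow)

theorem l_goo (h1 : S_P1) (h2 : L_SQR) (h3 : L_TRV) (h4 : L_TRK) : L_GOO := by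
  intro p hpf K _ _ ιinf ιp Lg S hcl M _ _ χ₀ hχ₀ hcopM hnotle δ Φ P hδ hPhi R al hdat hsel
    M₁ _ _ _ _ hcop ε a hε ha hadm hmatch j hj s hs hns N hNg hNp hgen L _ _ hNL hAdm
    Hf _ _ χ φ ψ hχ hφ hchar
  have hp := hpf.out
  obtain ⟨n, hLd⟩ := hAdm.deg
  have hfM : FiniteDimensional K M := FiniteDimensional.right ℚ K M
  have hM0 : 0 < finrank K M := finrank_pos
  have hN0 : 0 < finrank K N := by rw [hNp]; exact hp.pos
  have hfN : FiniteDimensional K N := FiniteDimensional.of_finrank_pos hN0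
  have hL0 : 0 < finrank K L := by rw [hLd]; exact pow_pos hp.pos n
  have hfL : FiniteDimensional K L := FiniteDimensional.of_finrank_pos hL0
  have hMg : IsGalois K M := inferInstance
  have hLg : IsGalois K L := inferInstance
  have hnM : Normal K M := inferInstance
  have hnL : Normal K L := inferInstance
  have hnN : Normal K N := inferInstance
  have hnΩ : Normal K (AlgebraicClosure K) := inferInstance
  have hgΩ : IsGalois K (AlgebraicClosure K) := inferInstance
  have hfM₁ : FiniteDimensional M M₁ := FiniteDimensional.right ℚ M M₁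
  let _ : Algebra K M₁ := ((algebraMap M M₁).comp (algebraMap K M)).toAlgebra
  have ht1 : IsScalarTower K M M₁ := IsScalarTower.of_algebraMap_eq fun _ => rfl
  have hfKM₁ : FiniteDimensional K M₁ := Module.Finite.trans M M₁
  have hjc : ∀ c : K, j (algebraMap K M₁ c) = algebraMap K (AlgebraicClosure K) c := fun c =>
    hj (algebraMap K M c)
  let jK : M₁ →ₐ[K] AlgebraicClosure K := { j with commutes' := hjc }
  obtain ⟨E, hE⟩ : ∃ E : IntermediateField K (AlgebraicClosure K), E = jK.fieldRange := ⟨_, rfl⟩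
  have hjE : ∀ x : M₁, j x ∈ E := fun x => by rw [hE]; exact ⟨x, rfl⟩
  have hEj : ∀ y ∈ E, ∃ x : M₁, j x = y := fun y hy => by rw [hE] at hy; exact hy
  have hME : M ≤ E := fun x hx => by
    have := hjE (algebraMap M M₁ ⟨x, hx⟩)
    rwa [hj] at this
  have hrankE : finrank K E = finrank K M₁ := by
    rw [hE]
    exact (LinearEquiv.finrank_eq (AlgEquiv.ofInjectiveField jK).toLinearEquiv).symm
  have hrankE' : finrank K E = finrank K M * finrank M M₁ := by
    rw [hrankE, Module.finrank_mul_finrank]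
  have hE0 : 0 < finrank K E := by rw [hrankE]; exact finrank_pos
  have hEc : (finrank K E).Coprime p := by
    rw [hrankE']
    exact Nat.Coprime.mul_left hcopM hcop
  have hfE : FiniteDimensional K E := FiniteDimensional.of_finrank_pos hE0
  -- the fields
  obtain ⟨F, hF⟩ : ∃ F : IntermediateField K (AlgebraicClosure K), F = M ⊔ L := ⟨_, rfl⟩
  obtain ⟨F₁, hF₁⟩ : ∃ F : IntermediateField K (AlgebraicClosure K), F = E ⊔ L := ⟨_, rfl⟩
  obtain ⟨H, hH⟩ : ∃ F' : IntermediateField K (AlgebraicClosure K), F' = F ⊔ N := ⟨_, rfl⟩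
  obtain ⟨H₁, hH₁⟩ : ∃ F' : IntermediateField K (AlgebraicClosure K), F' = F₁ ⊔ N := ⟨_, rfl⟩
  have hdF : finrank K F = finrank K M * p ^ n := by
    rw [hF]; exact (finrank_ELN hp hM0 hcopM hLg hNg hLd hNp hNL).1
  have hdH : finrank K H = finrank K M * p ^ (n + 1) := by
    rw [hH, hF]; exact (finrank_ELN hp hM0 hcopM hLg hNg hLd hNp hNL).2
  have hdF₁ : finrank K F₁ = finrank K E * p ^ n := by
    rw [hF₁]; exact (finrank_ELN hp hE0 hEc hLg hNg hLd hNp hNL).1
  have hdH₁ : finrank K H₁ = finrank K E * p ^ (n + 1) := by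
    rw [hH₁, hF₁]; exact (finrank_ELN hp hE0 hEc hLg hNg hLd hNp hNL).2
  have hMF : M ≤ F := by rw [hF]; exact le_sup_left
  have hLF : L ≤ F := by rw [hF]; exact le_sup_right
  have hFH : F ≤ H := by rw [hH]; exact le_sup_left
  have hNH : N ≤ H := by rw [hH]; exact le_sup_right
  have hEF₁ : E ≤ F₁ := by rw [hF₁]; exact le_sup_left
  have hLF₁ : L ≤ F₁ := by rw [hF₁]; exact le_sup_right
  have hFH₁ : F₁ ≤ H₁ := by rw [hH₁]; exact le_sup_left
  have hNH₁ : N ≤ H₁ := by rw [hH₁]; exact le_sup_right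
  have hFF₁ : F ≤ F₁ := by rw [hF]; exact sup_le (hME.trans hEF₁) hLF₁
  have hHH₁ : H ≤ H₁ := by rw [hH]; exact sup_le (hFF₁.trans hFH₁) hNH₁
  have hfF : FiniteDimensional K F := FiniteDimensional.of_finrank_pos (by
    rw [hdF]; exact Nat.mul_pos hM0 (pow_pos hp.pos _))
  have hfH : FiniteDimensional K H := FiniteDimensional.of_finrank_pos (by
    rw [hdH]; exact Nat.mul_pos hM0 (pow_pos hp.pos _))
  have hfF₁ : FiniteDimensional K F₁ := FiniteDimensional.of_finrank_pos (by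
    rw [hdF₁]; exact Nat.mul_pos hE0 (pow_pos hp.pos _))
  have hfH₁ : FiniteDimensional K H₁ := FiniteDimensional.of_finrank_pos (by
    rw [hdH₁]; exact Nat.mul_pos hE0 (pow_pos hp.pos _))
  have hnfF : NumberField F := NumberField.of_module_finite K F
  have hnfH : NumberField H := NumberField.of_module_finite K H
  have hnfF₁ : NumberField F₁ := NumberField.of_module_finite K F₁
  have hnfH₁ : NumberField H₁ := NumberField.of_module_finite K H₁
  have hgF : IsGalois K F := by rw [hF]; infer_instance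
  have hgH : IsGalois K H := by rw [hH]; infer_instance
  -- the element s
  have hsEN : s ∈ E ⊔ N := mem_of_fixed fun g hg =>
    hgen g (fun y hy => hg y ((le_sup_right : N ≤ E ⊔ N) hy))
      (fun x => hg _ ((le_sup_left : E ≤ E ⊔ N) (hjE x)))
  have hsE : s ∉ E := fun h => hns (hEj s h)
  have hsF₁ : s ∉ F₁ := by
    rw [hF₁]; exact s_not_mem hp hE0 hEc hLg hNg hLd hNp hNL hsEN hsE
  have hsH₁ : s ∈ H₁ := by
    have h5 : E ⊔ N ≤ H₁ := sup_le (hEF₁.trans hFH₁) hNH₁
    exact h5 hsEN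
  -- algebras
  let _ : Algebra M F := (IntermediateField.inclusion hMF).toRingHom.toAlgebra
  let _ : Algebra L F := (IntermediateField.inclusion hLF).toRingHom.toAlgebra
  let _ : Algebra M F₁ := (IntermediateField.inclusion (hMF.trans hFF₁)).toRingHom.toAlgebra
  let _ : Algebra F F₁ := (IntermediateField.inclusion hFF₁).toRingHom.toAlgebra
  let _ : Algebra M₁ F₁ := (j.codRestrict F₁ fun x => hEF₁ (hjE x)).toAlgebra
  let _ : Algebra F H := (IntermediateField.inclusion hFH).toRingHom.toAlgebra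
  let _ : Algebra L H := (IntermediateField.inclusion (hLF.trans hFH)).toRingHom.toAlgebra
  let _ : Algebra F₁ H₁ := (IntermediateField.inclusion hFH₁).toRingHom.toAlgebra
  let _ : Algebra H H₁ := (IntermediateField.inclusion hHH₁).toRingHom.toAlgebra
  have cMF : ∀ x : M, ((algebraMap M F x : F) : AlgebraicClosure K) = x := fun _ => rfl
  have cLF : ∀ x : L, ((algebraMap L F x : F) : AlgebraicClosure K) = x := fun _ => rfl
  have cMF₁ : ∀ x : M, ((algebraMap M F₁ x : F₁) : AlgebraicClosure K) = x := fun _ => rfl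
  have cFF₁ : ∀ x : F, ((algebraMap F F₁ x : F₁) : AlgebraicClosure K) = x := fun _ => rfl
  have cM₁F₁ : ∀ x : M₁, ((algebraMap M₁ F₁ x : F₁) : AlgebraicClosure K) = j x := fun _ => rfl
  have cFH : ∀ x : F, ((algebraMap F H x : H) : AlgebraicClosure K) = x := fun _ => rfl
  have cLH : ∀ x : L, ((algebraMap L H x : H) : AlgebraicClosure K) = x := fun _ => rfl
  have tKMF : IsScalarTower K M F := IsScalarTower.of_algebraMap_eq fun x => rfl
  have tKLF : IsScalarTower K L F := IsScalarTower.of_algebraMap_eq fun x => rfl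
  have tMM₁F₁ : IsScalarTower M M₁ F₁ := IsScalarTower.of_algebraMap_eq fun x =>
    Subtype.ext (hj x).symm
  have tMFF₁ : IsScalarTower M F F₁ := IsScalarTower.of_algebraMap_eq fun x => rfl
  have tLFH : IsScalarTower L F H := IsScalarTower.of_algebraMap_eq fun x => rfl
  have tKFH : IsScalarTower K F H := IsScalarTower.of_algebraMap_eq fun x => rfl
  have tKF₁H₁ : IsScalarTower K F₁ H₁ := IsScalarTower.of_algebraMap_eq fun x => rfl
  have tKLH : IsScalarTower K L H := IsScalarTower.of_algebraMap_eq fun x => rfl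
  have tKMΩ : IsScalarTower K F (AlgebraicClosure K) := inferInstance
  have tMFΩ : IsScalarTower M F (AlgebraicClosure K) :=
    IsScalarTower.of_algebraMap_eq fun x => rfl
  have tLFΩ : IsScalarTower L F (AlgebraicClosure K) :=
    IsScalarTower.of_algebraMap_eq fun x => rfl
  -- the squares
  have hq1 : Sqr p n K M L F := sqr_sup' hF cMF cLF hMg hLg hcopM hLd
  obtain ⟨r1, r2, r3, r4, -⟩ := h2 p n K M L F hq1
  have hq2 : Sqr p n M M₁ F F₁ :=
    sqr_two' hF hF₁ j hj hjE hEj cMF₁ cM₁F₁ cFF₁ r3 hcop r1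
  have hfMF₁ : FiniteDimensional M F₁ := by
    have e1 : IsScalarTower K M F₁ := IsScalarTower.of_algebraMap_eq fun x => rfl
    exact FiniteDimensional.right K M F₁
  obtain ⟨q1, q2, q3, q4, -⟩ := h2 p n M M₁ F F₁ hq2
  -- degrees
  have hdFH : finrank F H = p := finrank_rel hdF (Nat.mul_pos hM0 (pow_pos hp.pos _)) hdH (by
    rw [pow_succ, mul_assoc])
  have hdF₁H₁ : finrank F₁ H₁ = p := finrank_rel hdF₁ (Nat.mul_pos hE0 (pow_pos hp.pos _)) hdH₁ (by
    rw [pow_succ, mul_assoc])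
  -- automorphisms
  have haM₁ : (a : M₁) ≠ 0 := RingOfIntegers.coe_ne_zero_iff.2 ha
  have hja : j (a : M₁) ≠ 0 := fun h => haM₁ (j.injective (by rw [h, map_zero]))
  obtain ⟨gK, hgF₁, hgs⟩ := exists_gK (K := K) hp (hε.map_of_injective j.injective)
    (hEF₁ (hjE ε)) (hEF₁ (hjE a)) hja hs hsF₁
  have hNLg : IsGalois K (L ⊔ N : IntermediateField K (AlgebraicClosure K)) := inferInstance
  have hNLd := finrank_LN hp hLg hNg hLd hNp hNL
  obtain ⟨d, hdM, hdLN⟩ := exists_ext hM0 (N := L ⊔ N) (by rw [hNLd]; exact pow_pos hp.pos _)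
    hMg hNLg (by rw [hNLd]; exact Nat.Coprime.pow_right _ hcopM) δ
  have hdL : ∀ x ∈ L, d x = x := fun x hx => hdLN x ((le_sup_left : L ≤ L ⊔ N) hx)
  have hdN : ∀ x ∈ N, d x = x := fun x hx => hdLN x ((le_sup_right : N ≤ L ⊔ N) hx)
  have hgF : ∀ x ∈ F, gK x = x := fun x hx => hgF₁ x (hFF₁ hx)
  have hgL : ∀ x ∈ L, gK x = x := fun x hx => hgF₁ x (hLF₁ hx)
  have hgF₁' : ∀ x ∈ F₁, gK.symm x = x := fun x hx => by
    rw [AlgEquiv.symm_apply_eq]; exact (hgF₁ x hx).symm
  have nF : Normal K F := inferInstance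
  have nH : Normal K H := inferInstance
  have st1 : ∀ x ∈ H₁, gK x ∈ H₁ := by
    rw [hH₁]; exact map_sup_mem gK fun x hx => by rw [hgF₁ x hx]; exact hx
  have st2 : ∀ x ∈ H₁, gK.symm x ∈ H₁ := by
    rw [hH₁]; exact map_sup_mem gK.symm fun x hx => by rw [hgF₁' x hx]; exact hx
  have st3 : ∀ (g : AlgebraicClosure K ≃ₐ[K] AlgebraicClosure K), ∀ x ∈ H, g x ∈ H :=
    fun g x hx => map_mem_normal g hx
  have st4 : ∀ (g : AlgebraicClosure K ≃ₐ[K] AlgebraicClosure K), ∀ x ∈ F, g x ∈ F :=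
    fun g x hx => map_mem_normal g hx
  obtain ⟨γ, hγ⟩ : ∃ γ : H ≃ₐ[L] H, γ = resL cLH gK (st3 gK) (st3 gK.symm) hgL := ⟨_, rfl⟩
  obtain ⟨δ', hδ'⟩ : ∃ δ' : H ≃ₐ[L] H, δ' = resL cLH d (st3 d) (st3 d.symm) hdL := ⟨_, rfl⟩
  obtain ⟨δL, hδL⟩ : ∃ δL : F ≃ₐ[L] F, δL = resL cLF d (st4 d) (st4 d.symm) hdL := ⟨_, rfl⟩
  obtain ⟨γ₁, hγ₁⟩ : ∃ γ₁ : H₁ ≃ₐ[F₁] H₁,
    γ₁ = resL (fun x => rfl) gK st1 st2 hgF₁ := ⟨_, rfl⟩
  have cγ : ∀ x : H, ((γ x : H) : AlgebraicClosure K) = gK x := fun x => by rw [hγ]; rfl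
  have cδ' : ∀ x : H, ((δ' x : H) : AlgebraicClosure K) = d x := fun x => by rw [hδ']; rfl
  have cδL : ∀ x : F, ((δL x : F) : AlgebraicClosure K) = d x := fun x => by rw [hδL]; rfl
  have cγ₁ : ∀ x : H₁, ((γ₁ x : H₁) : AlgebraicClosure K) = gK x := fun x => by rw [hγ₁]; rfl
  have pγ : ∀ (i : ℕ) (x : H), (((γ ^ i) x : H) : AlgebraicClosure K) = (gK ^ i) x :=
    fun i x => by rw [hγ, resL_pow]
  have pδ' : ∀ (i : ℕ) (x : H), (((δ' ^ i) x : H) : AlgebraicClosure K) = (d ^ i) x :=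
    fun i x => by rw [hδ', resL_pow]
  have pδL : ∀ (i : ℕ) (x : F), (((δL ^ i) x : F) : AlgebraicClosure K) = (d ^ i) x :=
    fun i x => by rw [hδL, resL_pow]
  have pd : ∀ (i : ℕ) (x : M), (d ^ i) (x : AlgebraicClosure K) = ((δ ^ i) x : M) := by
    intro i
    induction i with
    | zero => intro x; rfl
    | succ i ih =>
      intro x
      rw [pow_succ', pow_succ', AlgEquiv.mul_apply, AlgEquiv.mul_apply, ih, hdM]
  have dm : ∀ x ∈ H, (d ^ finrank K M) x = x := by
    have e1 : ∀ x ∈ F, (d ^ finrank K M) x = (1 : AlgebraicClosure K ≃ₐ[K] AlgebraicClosure K) x := by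
      rw [hF]
      refine eq_on_sup (fun x hx => ?_) (fun x hx => fix_pow (hdL x hx) _)
      have e2 := pd (finrank K M) ⟨x, hx⟩
      rw [← hδ, pow_orderOf_eq_one] at e2
      rw [← hδ]
      exact e2
    rw [hH]
    exact eq_on_sup e1 (fun x hx => fix_pow (hdN x hx) _)
  have hδ'm : δ' ^ finrank K M = 1 := by
    ext y
    rw [pδ', dm y y.2]
    rfl
  have hδLm : δL ^ finrank K M = 1 := by
    ext y
    rw [pδL, dm y (hFH y.2)]
    rfl
  have hδ'o : orderOf δ' = finrank K M := by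
    apply Nat.dvd_antisymm (orderOf_dvd_of_pow_eq_one hδ'm)
    rw [← hδ]
    apply orderOf_dvd_of_pow_eq_one
    ext x
    rw [← pd]
    have e1 := pδ' (orderOf δ') ⟨x, hFH (hMF x.2)⟩
    rw [pow_orderOf_eq_one] at e1
    exact e1.symm
  have hδLo : orderOf δL = finrank K M := by
    apply Nat.dvd_antisymm (orderOf_dvd_of_pow_eq_one hδLm)
    rw [← hδ]
    apply orderOf_dvd_of_pow_eq_one
    ext x
    rw [← pd]
    have e1 := pδL (orderOf δL) ⟨x, hMF x.2⟩
    rw [pow_orderOf_eq_one] at e1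
    exact e1.symm
  have hgN1 : ¬ ∀ y ∈ N, gK y = y := by
    intro e1
    have e3 := hgen gK e1 fun x => hgF₁ _ (hEF₁ (hjE x))
    rw [hgs] at e3
    have hs0 : s ≠ 0 := by
      intro h0
      rw [h0, zero_pow hp.ne_zero] at hs
      exact hja hs.symm
    have e4 : j ε = 1 := by
      have : (j ε - 1) * s = 0 := by rw [sub_mul, e3, one_mul, sub_self]
      rcases mul_eq_zero.1 this with h' | h'
      · exact sub_eq_zero.1 h'
      · exact absurd h' hs0
    have e5 : ε = 1 := j.injective (by rw [e4, map_one])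
    exact hε.ne_one hp.one_lt e5
  have hgNp : ∀ y ∈ N, (gK ^ p) y = y := pow_fix (by rw [hNp]) hN0 hNg gK
  have hγp : γ ^ p = 1 := by
    ext y
    rw [pγ]
    have e1 : ∀ x ∈ H, (gK ^ p) x = (1 : AlgebraicClosure K ≃ₐ[K] AlgebraicClosure K) x := by
      rw [hH]
      exact eq_on_sup (fun x hx => fix_pow (hgF x hx) p) hgNp
    exact e1 y y.2
  have hγ1 : γ ≠ 1 := by
    intro h
    apply hgN1
    intro y hy
    have e2 := AlgEquiv.congr_fun h ⟨y, hNH hy⟩
    have e3 := cγ ⟨y, hNH hy⟩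
    rw [e2] at e3
    exact e3.symm
  have hγo : orderOf γ = p := orderOf_eq_prime hγp hγ1
  have hcomm : ∀ y : H, γ (δ' y) = δ' (γ y) := by
    intro y
    apply Subtype.ext
    rw [cγ, cδ', cδ', cγ]
    have e1 : ∀ x ∈ H, (gK * d) x = (d * gK) x := by
      rw [hH]
      refine eq_on_sup (fun x hx => ?_) (fun x hx => ?_)
      · change gK (d x) = d (gK x)
        rw [hgF x hx, hgF _ (st4 d x hx)]
      · change gK (d x) = d (gK x)
        rw [hdN x hx, hdN _ (map_mem_normal gK hx)]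
    exact e1 y y.2
  have hγF : ∀ x : F, γ (algebraMap F H x) = algebraMap F H x := fun x => by
    apply Subtype.ext
    rw [cγ, cFH]
    exact hgF x x.2
  have hδF : ∀ x : F, δ' (algebraMap F H x) = algebraMap F H (δL x) := fun x => by
    apply Subtype.ext
    rw [cδ', cFH, cFH, cδL]
  have hδM : ∀ x : M, δL (algebraMap M F x) = algebraMap M F (δ x) := fun x => by
    apply Subtype.ext
    rw [cδL, cMF, cMF, hdM]
  -- the data
  obtain ⟨a', ha'⟩ : ∃ a' : 𝓞 F₁, (a' : F₁) = algebraMap M₁ F₁ (a : M₁) ∧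
      (p : 𝓞 F₁) ^ 3 ∣ a' - 1 := by
    refine ⟨RingOfIntegers.mapRingHom (algebraMap M₁ F₁) a, rfl, ?_⟩
    have e1 := map_dvd (RingOfIntegers.mapRingHom (algebraMap M₁ F₁)) hadm
    rwa [map_pow, map_natCast, map_sub, map_one] at e1
  have ha'0 : a' ≠ 0 := by
    intro h
    have e1 := ha'.1
    rw [h] at e1
    have e2 : algebraMap M₁ F₁ (a : M₁) = 0 := by
      rw [← e1]
      exact map_zero (algebraMap (𝓞 F₁) F₁)
    exact haM₁ ((algebraMap M₁ F₁).injective (by rw [e2, map_zero]))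
  have hfMF : FiniteDimensional M F := FiniteDimensional.right K M F
  have tKMM₁ : finrank F F₁ = finrank M M₁ := q2
  have hclL : PlaceClosed (above (TSet ιinf ιp S) : Set (L →+* ℂ_[p])) := by
    intro σ τ hστ
    exact hcl _ _ fun x => hστ (algebraMap K L x)
  have hdata : HData (p := p) L F H F₁ H₁ (finrank K M) δL γ δ' γ₁
      (above (TSet ιinf ιp S) : Set (L →+* ℂ_[p])) (algebraMap M₁ F₁ ε) a' ⟨s, hsH₁⟩ :=
    { order := hδLo
      deg := r2
      degH := hdFH
      degH₁ := hdF₁H₁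
      compat := fun x => rfl
      cop := by rw [q2]; exact hcop
      gal := q4
      prim := hε.map_of_injective (algebraMap M₁ F₁).injective
      ne := ha'0
      adm := ha'.2
      pow := by
        apply Subtype.ext
        have e1 := ha'.1
        have e2 : ((a' : F₁) : AlgebraicClosure K) = j (a : M₁) := by rw [e1]; rfl
        exact hs.trans e2.symm
      γs := by
        apply Subtype.ext
        rw [cγ₁]
        exact hgs
      ext := fun y => by
        apply Subtype.ext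
        rw [cγ₁]
        exact (cγ y).symm
      γM := hγF
      γo := hγo
      δM := hδF
      δo := hδ'o
      comm := hcomm
      closed := hclL }
  have hex : ∀ e : ℕ, 0 < e → e < finrank K M → ∃ x ∈ M, (d ^ e) x ≠ x := by
    intro e he1 he2
    by_contra hcon
    push Not at hcon
    have e1 : δ ^ e = 1 := by
      ext x
      rw [← pd, hcon x x.2]
      rfl
    have e2 := orderOf_dvd_of_pow_eq_one e1
    rw [hδ] at e2
    exact absurd (Nat.le_of_dvd he1 e2) (not_le.2 he2)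
  have htorH : TorOK P δ' := by
    have e1 : TorOK P (res d (st3 d) (st3 d.symm)) := by
      refine h4 p ℂ_[p] (finrank K M) _ Φ P hPhi K M H (hMF.trans hFH) rfl ⟨n + 1, hdH⟩ hnotle _
        ?_ ?_
      · ext y
        rw [res_pow, dm y y.2]
        rfl
      · intro e he1 he2
        obtain ⟨x, hx1, hx2⟩ := hex e he1 he2
        refine ⟨⟨x, hFH (hMF hx1)⟩, hx1, fun h => hx2 ?_⟩
        have e3 := res_pow d (st3 d) (st3 d.symm) e ⟨x, hFH (hMF hx1)⟩
        rw [h] at e3
        exact e3.symm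
    rw [hδ']
    exact e1
  have htorF : TorOK P δL := by
    have e1 : TorOK P (res d (st4 d) (st4 d.symm)) := by
      refine h4 p ℂ_[p] (finrank K M) _ Φ P hPhi K M F hMF rfl ⟨n, hdF⟩ hnotle _
        ?_ ?_
      · ext y
        rw [res_pow, dm y (hFH y.2)]
        rfl
      · intro e he1 he2
        obtain ⟨x, hx1, hx2⟩ := hex e he1 he2
        refine ⟨⟨x, hMF hx1⟩, hx1, fun h => hx2 ?_⟩
        have e3 := res_pow d (st4 d) (st4 d.symm) e ⟨x, hMF hx1⟩
        rw [h] at e3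
        exact e3.symm
    rw [hδL]
    exact e1
  have hne : Nonempty (AlgebraicClosure ℚ →+* ℂ_[p]) :=
    Pool.Agent.Helper50.RS.nonempty_hom ℚ ℂ_[p]
  have hCL : CondL K M L (TSet ιinf ιp S) R :=
    { split := fun w hw v hv V hV => hAdm.split v ⟨w, hw, hv⟩ V hV
      unr := fun v h5 h6 h7 V hV => hAdm.unr v (fun ⟨w, hw, hv⟩ => h6 w hw hv) h5 h7 V hV }
  have hzp : ∀ f : M ≃ₐ[K] M, ∃ r : ℕ, f = δ ^ r := by
    intro f
    have e1 : f ∈ Subgroup.zpowers δ := by
      have e2 : Subgroup.zpowers δ = ⊤ := by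
        apply Subgroup.eq_top_of_card_eq
        rw [Nat.card_zpowers, hδ, IsGalois.card_aut_eq_finrank]
      rw [e2]; trivial
    rw [← mem_powers_iff_mem_zpowers] at e1
    obtain ⟨r, hr⟩ := e1
    exact ⟨r, hr.symm⟩
  have hT : ∀ σ ∈ TSet ιinf ιp S, CondT p K M L (AlgebraicClosure K) δ
      ((χ₀ δ : ℂ_[p]ˣ) : ℂ_[p]) σ := by
    intro σ hσ
    rcases hAdm.sig σ hσ with h5 | h5
    · exact Or.inl h5
    · refine Or.inr fun τ hτ => ?_
      obtain ⟨g, i, g1, g2, g3⟩ := h5 τ hτ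
      obtain ⟨r, hr⟩ := hzp (AlgEquiv.restrictNormalHom M g)
      refine ⟨g, r, i, g1, fun x => ?_, g2, ?_⟩
      · have e1 := AlgEquiv.restrictNormalHom_apply M g x
        rw [hr] at e1
        exact e1.symm
      · rw [hr, map_pow, Units.val_pow_eq_pow_val] at g3
        exact g3
  have hIAC : IsAlgClosure F (AlgebraicClosure K) := by
    have e1 : Algebra.IsAlgebraic F (AlgebraicClosure K) :=
      Algebra.IsAlgebraic.tower_top (K := K) F
    exact ⟨inferInstance, e1⟩
  have hSel : ∀ x : Fˣ, Sel Lg (above (above (TSet ιinf ιp S) : Set (L →+* ℂ_[p])) :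
      Set (F →+* ℂ_[p])) P δL (algebraMap M₁ F₁ (a : M₁)) x → Pw p x :=
    h3 p ℂ_[p] hne Lg n (finrank K M) K M L F M₁ F₁ (AlgebraicClosure K) hq1 hq2 δ δL _ Φ P hPhi
      hδ rfl hδM htorF (TSet ιinf ιp S) hT R al hdat hCL hsel a haM₁ hmatch
  have hSel' : ∀ x : Fˣ, Sel Lg (above (above (TSet ιinf ιp S) : Set (L →+* ℂ_[p])) :
      Set (F →+* ℂ_[p])) P δL (algebraMap (𝓞 F₁) F₁ a') x → Pw p x := by
    have e1 : algebraMap (𝓞 F₁) F₁ a' = algebraMap M₁ F₁ (a : M₁) := ha'.1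
    rw [e1]
    exact hSel
  -- the characters
  have hMr1 : ∀ g : AlgebraicClosure K ≃ₐ[K] AlgebraicClosure K, (∀ x ∈ M, g x = x) →
      χ₀ (AlgEquiv.restrictNormalHom M g) = 1 := fun g hg => by
    rw [res_one_iff.2 hg, map_one]
  have hLr1 : ∀ g : AlgebraicClosure K ≃ₐ[K] AlgebraicClosure K, (∀ x ∈ L, g x = x) →
      ψ (AlgEquiv.restrictNormalHom L g) = 1 := fun g hg => by
    rw [res_one_iff.2 hg, map_one]
  have hNr1 : ∀ g : AlgebraicClosure K ≃ₐ[K] AlgebraicClosure K, (∀ x ∈ N, g x = x) →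
      φ (AlgEquiv.restrictNormalHom N g) = 1 := fun g hg => by
    rw [res_one_iff.2 hg, map_one]
  have hHf : Hf ≤ H := by
    intro y hy
    apply mem_of_fixed
    intro g hg
    have e1 : χ (AlgEquiv.restrictNormalHom Hf g) = 1 := by
      rw [hchar g, hMr1 g fun x hx => hg x (hFH (hMF hx)), hNr1 g fun x hx => hg x (hNH hx),
        hLr1 g fun x hx => hg x (hFH (hLF hx)), one_mul, one_mul]
    have e2 : AlgEquiv.restrictNormalHom Hf g = 1 := hχ (by rw [e1, map_one])
    exact res_one_iff.1 e2 y hy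
  have hχγ : χ (AlgEquiv.restrictNormalHom Hf gK) = φ (AlgEquiv.restrictNormalHom N gK) := by
    rw [hchar gK, hMr1 gK fun x hx => hgF x (hMF hx), hLr1 gK hgL, one_mul, mul_one]
  have hχδ : χ (AlgEquiv.restrictNormalHom Hf d) = χ₀ δ := by
    have e1 : AlgEquiv.restrictNormalHom M d = δ := by
      ext x
      rw [AlgEquiv.restrictNormalHom_apply]
      exact hdM x
    rw [hchar d, hNr1 d hdN, hLr1 d hdL, e1, mul_one, mul_one]
  have hφp : IsPrimitiveRoot ((φ (AlgEquiv.restrictNormalHom N gK) : ℂ_[p]ˣ) : ℂ_[p]) p := by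
    have e0 : orderOf (AlgEquiv.restrictNormalHom N gK) = p := by
      apply orderOf_eq_prime
      · rw [← map_pow]
        exact res_one_iff.2 hgNp
      · intro h
        exact hgN1 (res_one_iff.1 h)
    have e1 : orderOf (φ (AlgEquiv.restrictNormalHom N gK)) = p := by
      rw [orderOf_injective φ hφ, e0]
    have e2 : orderOf ((φ (AlgEquiv.restrictNormalHom N gK) : ℂ_[p]ˣ) : ℂ_[p]) = p := by
      rw [orderOf_units, e1]
    have e3 := IsPrimitiveRoot.orderOf ((φ (AlgEquiv.restrictNormalHom N gK) : ℂ_[p]ˣ) : ℂ_[p])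
    rwa [e2] at e3
  -- the conclusion
  obtain ⟨i, hi⟩ : ∃ i : Hf →+* H, ∀ x : Hf, ((i x : H) : AlgebraicClosure K) = x :=
    ⟨(IntermediateField.inclusion hHf).toRingHom, fun x => rfl⟩
  have heq : ∀ (g : AlgebraicClosure K ≃ₐ[K] AlgebraicClosure K) (g' : H ≃ₐ[L] H),
      (∀ x : H, ((g' x : H) : AlgebraicClosure K) = g x) → ∀ x : Hf,
      g' (i x) = i (AlgEquiv.restrictNormalHom Hf g x) := by
    intro g g' hg x
    apply Subtype.ext
    rw [hg, hi, hi, AlgEquiv.restrictNormalHom_apply]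
  have hnfHf : NumberField Hf := NumberField.of_module_finite K Hf
  intro x hx
  apply bc_inj (ups i) (ups_inj i)
  rw [map_zero]
  refine h1 p ℂ_[p] hne Lg L F H F₁ H₁ (finrank K M) δL γ δ' γ₁
    (above (TSet ιinf ιp S) : Set (L →+* ℂ_[p])) (algebraMap M₁ F₁ ε) a' ⟨s, hsH₁⟩ _ Φ P hPhi
    hdata htorH hSel' _ hφp _ ?_ ?_ ?_
  · rw [ups_equiv i (AlgEquiv.restrictNormalHom Hf gK) γ (heq gK γ cγ),
      Pool.Agent.Helper50.RS.eig_eChi, map_smul, hχγ]
  · rw [ups_equiv i (AlgEquiv.restrictNormalHom Hf d) δ' (heq d δ' cδ'),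
      Pool.Agent.Helper50.RS.eig_eChi, map_smul, hχδ]
  · intro τ' hτ'
    rw [log_ups]
    apply hx
    obtain ⟨σ, hσ⟩ := exists_lift_embedding ιp (τ'.comp i)
    obtain ⟨σ₀, g1, g2⟩ := hτ'
    refine ⟨σ, ?_, ?_⟩
    · have g3 : σ.comp (algebraMap K Hf) = σ₀ := by
        apply Pool.Agent.Helper50.RS.comp_inj ιp
        show ιp.comp (σ.comp (algebraMap K _)) = ιp.comp σ₀
        rw [← g2, ← RingHom.comp_assoc, hσ]
        ext c
        exact congrArg τ' (Subtype.ext (hi _))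
      rw [g3]
      exact g1
    · rw [hσ]

end Pool.Agent.Helper13.RL
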