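import Pool.Agent.Helper13.RL.GOO1
import Pool.Agent.Helper13.RS.P1
import Pool.Agent.Helper79.RD.GOO

/-! RL: L_GOO, second part: transfer of vectors of units to a larger field. -/

namespace Pool.Agent.Helper13.RL

open NumberField Module TensorProduct Pool.Agent.Helper51.SigLeo
open Pool.Agent.Helper13.RS (bc bc_comp bc_extEnd extHom_bc el el_inj el_add el_unitsHom)

theorem bc_inj {k : Type} [Field k] [CharZero k] {A B : Type} [AddCommGroup A] [AddCommGroup B]
    (f : A →+ B) (hf : Function.Injective f) : Function.Injective (bc k f) := by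
  have h : Module.Flat ℤ k := inferInstance
  exact Module.Flat.lTensor_preserves_injective_linearMap (M := k) f.toIntLinearMap hf

section transfer

variable {H F : Type} [Field H] [Field F]

/-- The map on units given by an embedding of fields. -/
noncomputable def ups (i : H →+* F) : Additive (𝓞 H)ˣ →+ Additive (𝓞 F)ˣ :=
  AddMonoidHom.mk' (fun u ↦ .ofMul (Units.map (RingOfIntegers.mapRingHom i) u.toMul))
    fun _ _ ↦ congrArg Additive.ofMul (map_mul _ _ _)

theorem el_ups (i : H →+* F) (u : Additive (𝓞 H)ˣ) : el (ups i u) = i (el u) := rfl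

theorem ups_inj (i : H →+* F) : Function.Injective (ups i) := by
  intro u v h
  apply el_inj
  apply i.injective
  rw [← el_ups, ← el_ups, h]

theorem ups_equiv {k : Type} [Field k] {K K' : Type} [Field K] [Field K'] [Algebra K H]
    [Algebra K' F] (i : H →+* F) (g : H ≃ₐ[K] H) (g' : F ≃ₐ[K'] F) (h : ∀ x, g' (i x) = i (g x))
    (z : k ⊗[ℤ] Additive (𝓞 H)ˣ) :
    extEnd (unitsHom g') (bc k (ups i) z) = bc k (ups i) (extEnd (unitsHom g) z) := by
  rw [bc_extEnd, bc_extEnd, bc_comp, bc_comp]
  refine congrArg (fun f => bc k f z) (AddMonoidHom.ext fun u => ?_)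
  apply el_inj
  exact h (el u)

theorem log_ups {k : Type} [NormedField k] {p : ℕ} (L : IwasawaLog p k) (τ : F →+* k) (i : H →+* F)
    (z : k ⊗[ℤ] Additive (𝓞 H)ˣ) :
    extHom (logUnits L τ) (bc k (ups i) z) = extHom (logUnits L (τ.comp i)) z := by
  rw [extHom_bc]
  rfl

end transfer

end Pool.Agent.Helper13.RL
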