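import Pool.Agent.Helper79.RD.GOO1

/-! RL: L_GOO, first part: degrees of composita. -/

namespace Pool.Agent.Helper13.RL

open Module
open Pool.Agent.Helper79.RD (eq_on_sup mem_of_fixed finrank_sup_coprime)

section deg

variable {K Ω : Type} [Field K] [Field Ω] [Algebra K Ω]

theorem res_eq_of {F : IntermediateField K Ω} [Normal K F] {g h : Ω ≃ₐ[K] Ω}
    (e : AlgEquiv.restrictNormalHom F g = AlgEquiv.restrictNormalHom F h) :
    ∀ x ∈ F, g x = h x := by
  intro x hx
  have h1 := AlgEquiv.restrictNormalHom_apply F g ⟨x, hx⟩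
  have h2 := AlgEquiv.restrictNormalHom_apply F h ⟨x, hx⟩
  rw [e, h2] at h1
  exact h1.symm

theorem res_eq {F : IntermediateField K Ω} [Normal K F] {g h : Ω ≃ₐ[K] Ω}
    (e : ∀ x ∈ F, g x = h x) :
    AlgEquiv.restrictNormalHom F g = AlgEquiv.restrictNormalHom F h := by
  ext x
  rw [AlgEquiv.restrictNormalHom_apply, AlgEquiv.restrictNormalHom_apply]
  exact e x x.2

theorem res_one_iff {F : IntermediateField K Ω} [Normal K F] {g : Ω ≃ₐ[K] Ω} :
    AlgEquiv.restrictNormalHom F g = 1 ↔ ∀ x ∈ F, g x = x := by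
  have h1 : (AlgEquiv.restrictNormalHom F (1 : Ω ≃ₐ[K] Ω)) = 1 := map_one _
  constructor
  · intro h x hx
    exact res_eq_of (h := (1 : Ω ≃ₐ[K] Ω)) (h.trans h1.symm) x hx
  · intro h
    exact (res_eq (h := (1 : Ω ≃ₐ[K] Ω)) h).trans h1

theorem res_surj [Normal K Ω] (F : IntermediateField K Ω) [Normal K F] (f : F ≃ₐ[K] F) :
    ∃ g : Ω ≃ₐ[K] Ω, AlgEquiv.restrictNormalHom F g = f ∧ ∀ x : F, g (x : Ω) = (f x : F) := by
  refine ⟨f.liftNormal Ω, ?_, fun x => f.liftNormal_commutes Ω x⟩
  ext x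
  rw [AlgEquiv.restrictNormalHom_apply]
  exact f.liftNormal_commutes Ω x

/-- the degree of a compositum of Galois extensions divides the product of the degrees -/
theorem finrank_sup_dvd [Normal K Ω] {L N : IntermediateField K Ω} (hL0 : 0 < finrank K L)
    (hN0 : 0 < finrank K N) (hL : IsGalois K L) (hN : IsGalois K N) :
    finrank K (L ⊔ N : IntermediateField K Ω) ∣ finrank K L * finrank K N := by
  have hfL : FiniteDimensional K L := FiniteDimensional.of_finrank_pos hL0
  have hfN : FiniteDimensional K N := FiniteDimensional.of_finrank_pos hN0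
  have hg : IsGalois K (L ⊔ N : IntermediateField K Ω) := inferInstance
  rw [← IsGalois.card_aut_eq_finrank, ← IsGalois.card_aut_eq_finrank K L,
    ← IsGalois.card_aut_eq_finrank K N, ← Nat.card_prod]
  set F : IntermediateField K Ω := L ⊔ N with hF
  have key : ∀ f : F ≃ₐ[K] F, ∃ g : Ω ≃ₐ[K] Ω, AlgEquiv.restrictNormalHom F g = f :=
    fun f => (res_surj F f).imp fun g hg => hg.1
  have hker : ((AlgEquiv.restrictNormalHom L : (Ω ≃ₐ[K] Ω) →* (L ≃ₐ[K] L)).prod
      (AlgEquiv.restrictNormalHom N : (Ω ≃ₐ[K] Ω) →* (N ≃ₐ[K] N))).ker =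
      (AlgEquiv.restrictNormalHom F : (Ω ≃ₐ[K] Ω) →* (F ≃ₐ[K] F)).ker := by
    ext g
    rw [MonoidHom.mem_ker, MonoidHom.mem_ker, MonoidHom.prod_apply, Prod.mk_eq_one, res_one_iff,
      res_one_iff, res_one_iff]
    constructor
    · rintro ⟨h1, h2⟩
      exact eq_on_sup (g := 1) h1 h2
    · intro h
      exact ⟨fun x hx => h x ((le_sup_left : L ≤ L ⊔ N) hx),
        fun x hx => h x ((le_sup_right : N ≤ L ⊔ N) hx)⟩
  have e1 : Nat.card (F ≃ₐ[K] F) =
      Nat.card ((AlgEquiv.restrictNormalHom L : (Ω ≃ₐ[K] Ω) →* (L ≃ₐ[K] L)).prod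
      (AlgEquiv.restrictNormalHom N : (Ω ≃ₐ[K] Ω) →* (N ≃ₐ[K] N))).range := by
    refine Nat.card_congr ?_
    refine Equiv.trans ?_ (QuotientGroup.quotientKerEquivRange _).toEquiv
    rw [hker]
    exact (QuotientGroup.quotientKerEquivOfSurjective _ key).toEquiv.symm
  rw [e1]
  exact Subgroup.card_subgroup_dvd_card _

theorem finrank_LN [Normal K Ω] {p n : ℕ} (hp : p.Prime) {L N : IntermediateField K Ω}
    (hL : IsGalois K L) (hN : IsGalois K N) (hLd : finrank K L = p ^ n) (hNd : finrank K N = p)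
    (hNL : ¬ N ≤ L) : finrank K (L ⊔ N : IntermediateField K Ω) = p ^ (n + 1) := by
  have hL0 : 0 < finrank K L := by rw [hLd]; exact pow_pos hp.pos n
  have hN0 : 0 < finrank K N := by rw [hNd]; exact hp.pos
  have hfL : FiniteDimensional K L := FiniteDimensional.of_finrank_pos hL0
  have hfN : FiniteDimensional K N := FiniteDimensional.of_finrank_pos hN0
  have h1 := finrank_sup_dvd hL0 hN0 hL hN
  rw [hLd, hNd, ← pow_succ] at h1
  obtain ⟨i, hi, hi2⟩ := (Nat.dvd_prime_pow hp).1 h1
  have h2 : finrank K L ∣ finrank K (L ⊔ N : IntermediateField K Ω) :=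
    IntermediateField.finrank_dvd_of_le_right le_sup_left
  rw [hi2, hLd] at h2
  have h3 : n ≤ i := (Nat.pow_dvd_pow_iff_le_right hp.one_lt).1 h2
  have h4 : i ≠ n := by
    intro h5
    apply hNL
    have h6 : L = L ⊔ N := IntermediateField.eq_of_le_of_finrank_eq le_sup_left (by
      rw [hi2, hLd, h5])
    rw [h6]
    exact le_sup_right
  rw [hi2]
  congr 1
  omega

/-- `N` is not contained in `E ⊔ L` -/
theorem not_le_sup [Normal K Ω] {p n : ℕ} (hp : p.Prime) {E L N : IntermediateField K Ω}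
    (hE0 : 0 < finrank K E) (hE : (finrank K E).Coprime p)
    (hL : IsGalois K L) (hN : IsGalois K N) (hLd : finrank K L = p ^ n) (hNd : finrank K N = p)
    (hNL : ¬ N ≤ L) : ¬ N ≤ E ⊔ L := by
  intro h
  have hL0 : 0 < finrank K L := by rw [hLd]; exact pow_pos hp.pos n
  have hN0 : 0 < finrank K N := by rw [hNd]; exact hp.pos
  have hfE : FiniteDimensional K E := FiniteDimensional.of_finrank_pos hE0
  have hfL : FiniteDimensional K L := FiniteDimensional.of_finrank_pos hL0
  have hfN : FiniteDimensional K N := FiniteDimensional.of_finrank_pos hN0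
  have h1 : L ⊔ N ≤ E ⊔ L := sup_le le_sup_right h
  have h2 : finrank K (L ⊔ N : IntermediateField K Ω) ∣
      finrank K (E ⊔ L : IntermediateField K Ω) := IntermediateField.finrank_dvd_of_le_right h1
  rw [finrank_LN hp hL hN hLd hNd hNL, finrank_sup_coprime hE0 hL0 (by
    rw [hLd]; exact Nat.Coprime.pow_right n hE), hLd] at h2
  have h3 : Nat.Coprime (p ^ (n + 1)) (finrank K E) := Nat.Coprime.pow_left _ hE.symm
  have h4 := h3.dvd_of_dvd_mul_left h2
  have h5 := (Nat.pow_dvd_pow_iff_le_right hp.one_lt).1 h4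
  omega

/-- `s` is not in `E ⊔ L` -/
theorem s_not_mem [Normal K Ω] {p n : ℕ} (hp : p.Prime) {E L N : IntermediateField K Ω}
    (hE0 : 0 < finrank K E) (hE : (finrank K E).Coprime p)
    (hL : IsGalois K L) (hN : IsGalois K N) (hLd : finrank K L = p ^ n) (hNd : finrank K N = p)
    (hNL : ¬ N ≤ L) {s : Ω} (hs : s ∈ E ⊔ N) (hsE : s ∉ E) : s ∉ E ⊔ L := by
  intro h
  have hL0 : 0 < finrank K L := by rw [hLd]; exact pow_pos hp.pos n
  have hN0 : 0 < finrank K N := by rw [hNd]; exact hp.pos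
  have hfE : FiniteDimensional K E := FiniteDimensional.of_finrank_pos hE0
  have hfL : FiniteDimensional K L := FiniteDimensional.of_finrank_pos hL0
  have hfN : FiniteDimensional K N := FiniteDimensional.of_finrank_pos hN0
  set F : IntermediateField K Ω := (E ⊔ N) ⊓ (E ⊔ L) with hF
  have hEF : E ≤ F := le_inf le_sup_left le_sup_left
  have h1 : finrank K (E ⊔ N : IntermediateField K Ω) = finrank K E * p := by
    rw [finrank_sup_coprime hE0 hN0 (by rw [hNd]; exact hE), hNd]
  have hFN : F ≤ E ⊔ N := inf_le_left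
  have h2 : finrank K F ∣ finrank K E * p := by
    rw [← h1]
    exact IntermediateField.finrank_dvd_of_le_right hFN
  have h3 : finrank K E ∣ finrank K F := IntermediateField.finrank_dvd_of_le_right hEF
  obtain ⟨c, hc⟩ := h3
  rw [hc] at h2
  have h4 : c ∣ p := Nat.dvd_of_mul_dvd_mul_left hE0 h2
  have hfF : FiniteDimensional K F := by
    have : FiniteDimensional K (E ⊔ N : IntermediateField K Ω) := inferInstance
    exact FiniteDimensional.of_injective (IntermediateField.inclusion hFN).toLinearMap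
      (IntermediateField.inclusion hFN).injective
  rcases (Nat.dvd_prime hp).1 h4 with h5 | h5
  · have h6 : E = F := IntermediateField.eq_of_le_of_finrank_eq hEF (by rw [hc, h5, mul_one])
    apply hsE
    rw [h6]
    exact ⟨hs, h⟩
  · have h6 : F = E ⊔ N := IntermediateField.eq_of_le_of_finrank_eq hFN (by rw [hc, h5, h1])
    apply not_le_sup hp hE0 hE hL hN hLd hNd hNL
    have h7 : N ≤ F := by
      rw [h6]
      exact le_sup_right
    exact h7.trans inf_le_right

/-- The degree of `(E ⊔ L) ⊔ N`. -/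
theorem finrank_ELN [Normal K Ω] {p n : ℕ} (hp : p.Prime) {E L N : IntermediateField K Ω}
    (hE0 : 0 < finrank K E) (hE : (finrank K E).Coprime p)
    (hL : IsGalois K L) (hN : IsGalois K N) (hLd : finrank K L = p ^ n) (hNd : finrank K N = p)
    (hNL : ¬ N ≤ L) :
    finrank K (E ⊔ L : IntermediateField K Ω) = finrank K E * p ^ n ∧
    finrank K (E ⊔ L ⊔ N : IntermediateField K Ω) = finrank K E * p ^ (n + 1) := by
  have hL0 : 0 < finrank K L := by rw [hLd]; exact pow_pos hp.pos n
  have h1 := finrank_LN hp hL hN hLd hNd hNL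
  constructor
  · rw [finrank_sup_coprime hE0 hL0 (by rw [hLd]; exact Nat.Coprime.pow_right n hE), hLd]
  · rw [sup_assoc, finrank_sup_coprime hE0 (by rw [h1]; exact pow_pos hp.pos _) (by
      rw [h1]; exact Nat.Coprime.pow_right _ hE), h1]

end deg

section rel

variable {K Ω : Type} [Field K] [Field Ω] [Algebra K Ω]

/-- two homomorphisms which agree on `A` and `B` agree on `A ⊔ B` -/
theorem hom_ext_sup {A B : IntermediateField K Ω} {X : Type} [Field X] [Algebra K X]
    {f g : (A ⊔ B : IntermediateField K Ω) →ₐ[K] X}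
    (hA : ∀ (x : Ω) (hx : x ∈ A), f ⟨x, (le_sup_left : A ≤ A ⊔ B) hx⟩ =
      g ⟨x, (le_sup_left : A ≤ A ⊔ B) hx⟩)
    (hB : ∀ (x : Ω) (hx : x ∈ B), f ⟨x, (le_sup_right : B ≤ A ⊔ B) hx⟩ =
      g ⟨x, (le_sup_right : B ≤ A ⊔ B) hx⟩) : f = g := by
  have hS : A ⊔ B = IntermediateField.adjoin K ((A : Set Ω) ∪ (B : Set Ω)) :=
    IntermediateField.sup_def A B
  refine IntermediateField.algHom_ext_of_eq_adjoin K hS fun x hx => ?_
  rcases hx with hx | hx
  · exact hA x hx
  · exact hB x hx

omit [Field K] [Algebra K Ω] in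
theorem normal_of_stable {A B : Type} [Field A] [Field B] [Algebra A B] [Algebra A Ω]
    [Algebra B Ω] [IsScalarTower A B Ω] [Normal A Ω]
    (h : ∀ (σ : Ω ≃ₐ[A] Ω) (b : B), ∃ b' : B, algebraMap B Ω b' = σ (algebraMap B Ω b)) :
    Normal A B := by
  let f : B →ₐ[A] Ω := IsScalarTower.toAlgHom A B Ω
  have h1 : Normal A f.fieldRange := by
    rw [IntermediateField.normal_iff_forall_map_le']
    rintro σ _ ⟨_, ⟨b, rfl⟩, rfl⟩
    obtain ⟨b', hb'⟩ := h σ b
    exact ⟨b', hb'⟩
  exact Normal.of_algEquiv (f.equivFieldRange).symm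

theorem finrank_rel {A B : IntermediateField K Ω} [Algebra A B] [IsScalarTower K A B]
    [FiniteDimensional K B] {a b c : ℕ} (ha : finrank K A = a) (ha0 : 0 < a)
    (hb : finrank K B = b) (hab : b = a * c) : finrank A B = c := by
  have hfA : FiniteDimensional K A := FiniteDimensional.of_finrank_pos (by rw [ha]; exact ha0)
  have hfAB : FiniteDimensional A B := FiniteDimensional.right K A B
  have h1 := Module.finrank_mul_finrank K A B
  rw [ha, hb, hab] at h1
  exact Nat.eq_of_mul_eq_mul_left ha0 h1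

end rel

end Pool.Agent.Helper13.RL
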