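import Mathlib
import Pool.Agent.Helper18.RL.Goals

set_option autoImplicit false
set_option linter.unusedSectionVars false

/-!
RL-STB: odd sets which are bipartite, or stable up to two vertices, have cuts of size at least `r`.
-/

namespace Pool.Agent.Helper13.RL

open Finset Pool.Agent.Helper37.RG3 Pool.Agent.Helper18.RL

variable {V : Type} [Fintype V] [DecidableEq V]

theorem bt_univ {U : Finset V} {w : V → V → ℕ} {r : ℕ} (h : RR U w r) {A : Finset V}
    (hA : A ⊆ U) : bt w A univ = r * A.card := by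
  unfold bt
  rw [Finset.sum_congr rfl (fun a ha => h.deg a (hA ha)), sum_const, smul_eq_mul, mul_comm]

/-- A stable subset `T` of `X`: its degree sum is at most that of `X \ T` plus the cut of `X`. -/
theorem stab {U X T : Finset V} {w : V → V → ℕ} {r : ℕ} (h : RR U w r) (hX : X ⊆ U) (hT : T ⊆ X)
    (hs : ∀ x ∈ T, ∀ y ∈ T, w x y = 0) : r * T.card ≤ r * (X \ T).card + ct w X := by
  have h1 : bt w T univ = bt w T T + bt w T (X \ T) + bt w T Xᶜ := by
    rw [← bt_union_right w T disjoint_sdiff, union_sdiff_of_subset hT,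
      ← bt_union_right w T (disjoint_compl_right (a := X))]
    congr 1
    exact (union_compl X).symm
  have h2 : bt w T T = 0 := (bt_eq_zero w).mpr hs
  have h3 : bt w T (X \ T) ≤ r * (X \ T).card := by
    rw [bt_comm w h.symm, ← bt_univ h (sdiff_subset.trans hX)]
    exact bt_mono w subset_rfl (subset_univ _)
  have h4 : bt w T Xᶜ ≤ ct w X := bt_mono w hT subset_rfl
  rw [← bt_univ h (hT.trans hX)]
  omega

theorem bip {U P Q : Finset V} {w : V → V → ℕ} {r : ℕ} (h : RR U w r) (hX : P ∪ Q ⊆ U)
    (hd : Disjoint P Q) (hQ : ∀ x ∈ Q, ∀ y ∈ Q, w x y = 0) (hc : P.card < Q.card) :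
    r ≤ ct w (P ∪ Q) := by
  have h1 := stab h hX subset_union_right hQ
  have h2 : (P ∪ Q) \ Q = P := by
    rw [union_sdiff_right]
    exact sdiff_eq_self_of_disjoint hd
  rw [h2] at h1
  have h3 : r * (P.card + 1) ≤ r * Q.card := Nat.mul_le_mul_left r hc
  rw [mul_add, mul_one] at h3
  omega

theorem gstb : G_STB := by
  intro V _ _ U w r h
  refine ⟨?_, ?_⟩
  · intro P Q hX hd ho hP hQ
    rcases lt_trichotomy P.card Q.card with hc | hc | hc
    · exact bip h hX hd hQ hc
    · exfalso
      rw [card_union_of_disjoint hd, hc] at ho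
      exact (Nat.not_odd_iff_even.mpr ⟨_, rfl⟩) ho
    · rw [union_comm]
      rw [union_comm] at hX
      exact bip h hX hd.symm hP hc
  · intro X T hX hT h2 h3 hs
    have h1 := stab h hX hT hs
    rw [h2] at h1
    have h4 : r * 3 ≤ r * T.card := Nat.mul_le_mul_left r h3
    omega

end Pool.Agent.Helper13.RL
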